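import Mathlib
import Pool.Agent.Q76.RemovableInit

/-!
# MP_034ae1_an: a compact, totally disconnected, Lebesgue null subset of the plane which is not
c-removable
-/

namespace Pool.Agent.Results.MP_034ae1_an.NullNotRemovable

open MeasureTheory Set

/-- `f` is locally convex on the (open) set `U`: every point of `U` has an open convex
neighbourhood `V ⊆ U` such that `f` is convex on `V`. -/
def LocallyConvexOn {d : ℕ} (U : Set (EuclideanSpace ℝ (Fin d)))
    (f : EuclideanSpace ℝ (Fin d) → ℝ) : Prop :=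
  ∀ x ∈ U, ∃ V ⊆ U, IsOpen V ∧ Convex ℝ V ∧ x ∈ V ∧ ConvexOn ℝ V f

/-- The set `A` is c-removable: every continuous function which is locally convex on the
complement of `A` is convex. -/
def IsCRemovable {d : ℕ} (A : Set (EuclideanSpace ℝ (Fin d))) : Prop :=
  ∀ f : EuclideanSpace ℝ (Fin d) → ℝ, Continuous f → LocallyConvexOn Aᶜ f → ConvexOn ℝ univ f

/-- The identification of the Euclidean plane with `ℝ × ℝ`. -/
noncomputable def e : EuclideanSpace ℝ (Fin 2) ≃L[ℝ] ℝ × ℝ :=
  (PiLp.continuousLinearEquiv 2 ℝ (fun _ : Fin 2 => ℝ)).trans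
    (ContinuousLinearEquiv.finTwoArrow ℝ ℝ)

lemma measurePreserving_e : MeasurePreserving e (volume : Measure (EuclideanSpace ℝ (Fin 2)))
    (volume : Measure (ℝ × ℝ)) :=
  (volume_preserving_finTwoArrow ℝ).comp (PiLp.volume_preserving_ofLp (Fin 2))

/-- There is a closed (even compact), totally disconnected subset of the plane of Lebesgue measure
zero which is not c-removable. -/
theorem result : ∃ E : Set (EuclideanSpace ℝ (Fin 2)), IsClosed E ∧ IsCompact E ∧
    IsTotallyDisconnected E ∧ volume E = 0 ∧ ¬ IsCRemovable E := by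
  obtain ⟨E, F, hE, hEt, hE0, hF, hloc, hnot⟩ := Q76.RemovableBlocks.exists_not_removable
  have hpre : e ⁻¹' E = e.toHomeomorph ⁻¹' E := rfl
  have hcomp : IsCompact (e ⁻¹' E) := by
    rw [hpre]
    exact e.toHomeomorph.isCompact_preimage.mpr hE
  refine ⟨e ⁻¹' E, hcomp.isClosed, hcomp, ?_, ?_, fun hrem => hnot ?_⟩
  · apply isTotallyDisconnected_of_image e.continuous.continuousOn e.injective
    rw [image_preimage_eq _ e.surjective]
    exact hEt
  · rw [measurePreserving_e.measure_preimage hE.measurableSet.nullMeasurableSet, hE0]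
  · have h1 : ConvexOn ℝ univ (F ∘ e) := by
      refine hrem (F ∘ e) (hF.comp e.continuous) fun x hx => ?_
      obtain ⟨V, hVE, hVo, hVc, hxV, hV⟩ := hloc (e x) hx
      refine ⟨e ⁻¹' V, preimage_mono hVE, hVo.preimage e.continuous, ?_, hxV, ?_⟩
      · exact hVc.linear_preimage (e : EuclideanSpace ℝ (Fin 2) →ₗ[ℝ] ℝ × ℝ)
      · exact hV.comp_linearMap (e : EuclideanSpace ℝ (Fin 2) →ₗ[ℝ] ℝ × ℝ)
    have h2 := h1.comp_linearMap (e.symm : ℝ × ℝ →ₗ[ℝ] EuclideanSpace ℝ (Fin 2))
    have h3 : (F ∘ e) ∘ (e.symm : ℝ × ℝ →ₗ[ℝ] EuclideanSpace ℝ (Fin 2)) = F := by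
      ext x
      simp
    rw [h3] at h2
    simpa using h2

end Pool.Agent.Results.MP_034ae1_an.NullNotRemovable
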